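import Mathlib
import Pool.Agent.R4.EP.Core

/-!
# The conjectured minimum size of `k`-edge-proper graphs is wrong for every `k ≥ 23`

There are edge-pancyclic graphs on `n = 84 * 2 ^ j - 58` vertices with at most `2 n - 2 ^ (j + 1)` edges,
which is less than `(4 k - 9) n / (2 k - 4) = 2 n - n / (2 k - 4)` if `k ≥ 23`.
-/

set_option autoImplicit false

namespace Pool.Agent.Results.MP_0ca78d_co.LargeK

/-- A graph on `n` vertices is `k`-edge-proper if every edge lies in a cycle of length `i` for every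
`i` with `3 ≤ i ≤ k`, and in a Hamilton cycle. -/
def EdgeProper {n : ℕ} (k : ℕ) (G : SimpleGraph (Fin n)) : Prop :=
  ∀ e ∈ G.edgeSet,
    (∀ i : ℕ, 3 ≤ i → i ≤ k →
      ∃ (v : Fin n) (c : G.Walk v v), c.IsCycle ∧ c.length = i ∧ e ∈ c.edges) ∧
    ∃ (v : Fin n) (c : G.Walk v v), c.IsHamiltonianCycle ∧ e ∈ c.edges

/-- Arithmetic: `m < (2 - 1/42) n` implies `m < (4k-9)n/(2k-4)` if `k ≥ 23`. -/
theorem lt_ceil_aux (m n k : ℕ) (h : 42 * m + n < 84 * n) (hk : 23 ≤ k) :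
    (m : ℤ) < ⌈((4 * (k : ℚ) - 9) * n) / (2 * k - 4)⌉ := by
  rw [Int.lt_ceil]
  have hk' : (23 : ℚ) ≤ k := by exact_mod_cast hk
  have h7 : (42 : ℚ) * m + n < 84 * n := by exact_mod_cast h
  have h8 : (0 : ℚ) ≤ n := Nat.cast_nonneg n
  rw [lt_div_iff₀ (by linarith)]
  push_cast
  have h9 : (m : ℚ) < 83 * n / 42 := by linarith
  have h10 : (m : ℚ) * (2 * k - 4) < 83 * n / 42 * (2 * k - 4) :=
    mul_lt_mul_of_pos_right h9 (by linarith)
  nlinarith [mul_nonneg h8 (sub_nonneg.2 hk')]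

/-- For every `k ≥ 23` there are infinitely many `n` with a `k`-edge-proper graph on `n` vertices with
at least one edge and fewer than `⌈(4 k - 9) n / (2 k - 4)⌉` edges; so the conjectured lower bound
fails for every `k ≥ 23`. -/
theorem result : ∀ k : ℕ, 23 ≤ k → ∀ N : ℕ, ∃ n ≥ N, ∃ G : SimpleGraph (Fin n),
    G.edgeSet.Nonempty ∧ EdgeProper k G ∧
      (G.edgeSet.ncard : ℤ) < ⌈((4 * (k : ℚ) - 9) * n) / (2 * k - 4)⌉ := by
  intro k hk N
  obtain ⟨G, h2, h3, h4⟩ := Pool.Agent.R4.EP.main (N + k)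
  have h5 : N + k < 2 ^ (N + k) := Nat.lt_two_pow_self
  refine ⟨84 * 2 ^ (N + k) - 58, by omega, G, h2, ?_, ?_⟩
  · intro e he
    refine ⟨fun i hi1 hi2 => h3 e he i hi1 (by omega), ?_⟩
    obtain ⟨z, c, hc1, hc2, hc3⟩ := h3 e he (84 * 2 ^ (N + k) - 58) (by omega) le_rfl
    refine ⟨z, c, ?_, hc3⟩
    rw [SimpleGraph.Walk.isHamiltonianCycle_iff_isCycle_and_length_eq]
    exact ⟨hc1, by rw [hc2, Fintype.card_fin]⟩
  · refine lt_ceil_aux _ _ k ?_ hk
    rw [pow_succ] at h4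
    omega

end Pool.Agent.Results.MP_0ca78d_co.LargeK
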